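import Mathlib

set_option autoImplicit false

namespace Pool.Agent.Results.MP_308823_co.GammaFails

open Polynomial

/-- The cyclic block polytope `C_m^(a)`: points `x` with `m` cyclic blocks of size `a`,
nonnegative coordinates, and `R_i + R_{i+1} ≤ 1` for the block sums `R_i`. -/
def cyclicBlock (a m : ℕ) : Set (ZMod m → Fin a → ℝ) :=
  {x | (∀ i j, 0 ≤ x i j) ∧ ∀ i, (∑ j, x i j) + (∑ j, x (i + 1) j) ≤ 1}

/-- The number `L(q)` of integer points of the dilate `q C_m^(a)`. -/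
noncomputable def L (a m q : ℕ) : ℕ :=
  Set.ncard {x : ZMod m → Fin a → ℤ |
    (fun i j => (x i j : ℝ)) ∈ (fun y => (q : ℝ) • y) '' cyclicBlock a m}

/-- `h` is the rational Ehrhart numerator `h_{m,a}`:
`h(z) = (1 - z^2)^(a m + 1) * ∑_q L(q) z^q` as formal power series. -/
def IsNumerator (a m : ℕ) (h : ℤ[X]) : Prop :=
  (h : PowerSeries ℤ) =
    (1 - PowerSeries.X ^ 2) ^ (a * m + 1) * PowerSeries.mk (fun q => (L a m q : ℤ))

/-- `h`, of degree `N`, is `γ`-nonnegative: `h = ∑_j γ_j z^j (1+z)^(N-2j)` with all `γ_j ≥ 0`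
(the sum being over `0 ≤ j ≤ N/2`). -/
def GammaNonneg (h : ℤ[X]) : Prop :=
  ∃ γ : ℕ → ℝ, (∀ j, 0 ≤ γ j) ∧
    h.map (Int.castRingHom ℝ) =
      ∑ j ∈ Finset.range (h.natDegree / 2 + 1),
        C (γ j) * X ^ j * (1 + X) ^ (h.natDegree - 2 * j)

/-- Triples of naturals with pairwise sums at most `q`. -/
def T (q : ℕ) : Finset (ℕ × ℕ × ℕ) :=
  ((Finset.range (q + 1)) ×ˢ (Finset.range (q + 1)) ×ˢ (Finset.range (q + 1))).filter
    (fun p => p.1 + p.2.1 ≤ q ∧ p.2.1 + p.2.2 ≤ q ∧ p.2.2 + p.1 ≤ q)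

lemma mem_T {q : ℕ} {p : ℕ × ℕ × ℕ} :
    p ∈ T q ↔ p.1 + p.2.1 ≤ q ∧ p.2.1 + p.2.2 ≤ q ∧ p.2.2 + p.1 ≤ q := by
  unfold T
  simp only [Finset.mem_filter, Finset.mem_product, Finset.mem_range]
  constructor
  · rintro ⟨_, h⟩; exact h
  · intro h; refine ⟨⟨?_, ?_, ?_⟩, h⟩ <;> omega

lemma mem_dilate (q : ℕ) (x : ZMod 3 → Fin 1 → ℤ) :
    ((fun i j => (x i j : ℝ)) ∈ (fun y => (q : ℝ) • y) '' cyclicBlock 1 3) ↔
      (∀ i, 0 ≤ x i 0) ∧ ∀ i, x i 0 + x (i + 1) 0 ≤ q := by
  constructor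
  · rintro ⟨y, ⟨hy0, hy1⟩, hyx⟩
    have hx : ∀ i, (x i 0 : ℝ) = q * y i 0 := by
      intro i
      have := congrFun (congrFun hyx i) 0
      simpa using this.symm
    have hq : (0 : ℝ) ≤ q := Nat.cast_nonneg q
    constructor
    · intro i
      have : (0 : ℝ) ≤ x i 0 := by rw [hx]; exact mul_nonneg hq (hy0 i 0)
      exact_mod_cast this
    · intro i
      have h1 := hy1 i
      simp only [Finset.univ_unique, Fin.default_eq_zero, Finset.sum_singleton] at h1
      have : (x i 0 : ℝ) + x (i + 1) 0 ≤ q := by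
        rw [hx, hx, ← mul_add]
        calc (q : ℝ) * (y i 0 + y (i + 1) 0) ≤ q * 1 := mul_le_mul_of_nonneg_left h1 hq
          _ = q := mul_one _
      exact_mod_cast this
  · rintro ⟨h0, h1⟩
    rcases Nat.eq_zero_or_pos q with hq | hq
    · subst hq
      refine ⟨fun _ _ => 0, ⟨fun _ _ => le_refl _, fun i => by simp⟩, ?_⟩
      funext i j
      have hj : j = 0 := Subsingleton.elim _ _
      subst hj
      have a1 := h0 i
      have a2 := h0 (i + 1)
      have a3 := h1 i
      have : x i 0 = 0 := by push_cast at a3; omega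
      simp [this]
    · have hq' : (0 : ℝ) < q := Nat.cast_pos.mpr hq
      refine ⟨fun i j => (x i j : ℝ) / q, ⟨?_, ?_⟩, ?_⟩
      · intro i j
        have hj : j = 0 := Subsingleton.elim _ _
        subst hj
        have : (0 : ℝ) ≤ x i 0 := by exact_mod_cast h0 i
        positivity
      · intro i
        simp only [Finset.univ_unique, Fin.default_eq_zero, Finset.sum_singleton]
        rw [← add_div, div_le_one hq']
        exact_mod_cast h1 i
      · funext i j
        simp only [Pi.smul_apply, smul_eq_mul]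
        field_simp

lemma L_eq (q : ℕ) : L 1 3 q = (T q).card := by
  unfold L
  rw [← Set.ncard_coe_finset]
  symm
  refine Set.ncard_congr (fun p _ => fun i _ => if i = 0 then (p.1 : ℤ) else
    if i = 1 then (p.2.1 : ℤ) else (p.2.2 : ℤ)) ?_ ?_ ?_
  · rintro ⟨u, v, w⟩ hp
    have hp' := mem_T.mp (by exact_mod_cast hp)
    simp only at hp'
    rw [Set.mem_ofPred_eq, mem_dilate]
    constructor
    · intro i
      split_ifs <;> positivity
    · intro i
      fin_cases i
      · show ((if (0 : ZMod 3) = 0 then (u : ℤ) else if (0 : ZMod 3) = 1 then (v : ℤ) else w) +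
          (if (0 + 1 : ZMod 3) = 0 then (u : ℤ) else if (0 + 1 : ZMod 3) = 1 then (v : ℤ) else w)) ≤ q
        have e1 : ¬ ((0 : ZMod 3) + 1 = 0) := by decide
        have e2 : ((0 : ZMod 3) + 1 = 1) := by decide
        rw [if_pos rfl, if_neg e1, if_pos e2]
        omega
      · show ((if (1 : ZMod 3) = 0 then (u : ℤ) else if (1 : ZMod 3) = 1 then (v : ℤ) else w) +
          (if (1 + 1 : ZMod 3) = 0 then (u : ℤ) else if (1 + 1 : ZMod 3) = 1 then (v : ℤ) else w)) ≤ q
        have e0 : ¬ ((1 : ZMod 3) = 0) := by decide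
        have e1 : ¬ ((1 : ZMod 3) + 1 = 0) := by decide
        have e2 : ¬ ((1 : ZMod 3) + 1 = 1) := by decide
        rw [if_neg e0, if_pos rfl, if_neg e1, if_neg e2]
        omega
      · show ((if (2 : ZMod 3) = 0 then (u : ℤ) else if (2 : ZMod 3) = 1 then (v : ℤ) else w) +
          (if (2 + 1 : ZMod 3) = 0 then (u : ℤ) else if (2 + 1 : ZMod 3) = 1 then (v : ℤ) else w)) ≤ q
        have e0 : ¬ ((2 : ZMod 3) = 0) := by decide
        have e0' : ¬ ((2 : ZMod 3) = 1) := by decide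
        have e1 : ((2 : ZMod 3) + 1 = 0) := by decide
        rw [if_neg e0, if_neg e0', if_pos e1]
        omega
  · rintro ⟨u, v, w⟩ ⟨u', v', w'⟩ _ _ h
    have h0 := congrFun (congrFun h 0) 0
    have h1 := congrFun (congrFun h 1) 0
    have h2 := congrFun (congrFun h 2) 0
    have e0 : ¬ ((1 : ZMod 3) = 0) := by decide
    have e1 : ¬ ((2 : ZMod 3) = 0) := by decide
    have e2 : ¬ ((2 : ZMod 3) = 1) := by decide
    simp only [if_true, e0, e1, e2, if_false] at h0 h1 h2
    simp only [Prod.mk.injEq]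
    omega
  · intro x hx
    rw [Set.mem_ofPred_eq, mem_dilate] at hx
    obtain ⟨h0, h1⟩ := hx
    have a0 := h0 0
    have a1 := h0 1
    have a2 := h0 2
    have b0 := h1 0
    have b1 := h1 1
    have b2 := h1 2
    have c0 : (0 : ZMod 3) + 1 = 1 := by decide
    have c1 : (1 : ZMod 3) + 1 = 2 := by decide
    have c2 : (2 : ZMod 3) + 1 = 0 := by decide
    rw [c0] at b0; rw [c1] at b1; rw [c2] at b2
    refine ⟨((x 0 0).toNat, (x 1 0).toNat, (x 2 0).toNat), ?_, ?_⟩
    · have : ((x 0 0).toNat, (x 1 0).toNat, (x 2 0).toNat) ∈ T q := by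
        rw [mem_T]; simp only; omega
      exact_mod_cast this
    · funext i j
      have hj : j = 0 := Subsingleton.elim _ _
      subst hj
      have e0 : ¬ ((1 : ZMod 3) = 0) := by decide
      have e1 : ¬ ((2 : ZMod 3) = 0) := by decide
      have e2 : ¬ ((2 : ZMod 3) = 1) := by decide
      fin_cases i
      · show (if (0 : ZMod 3) = 0 then ((x 0 0).toNat : ℤ) else _) = x 0 0
        rw [if_pos rfl]; omega
      · show (if (1 : ZMod 3) = 0 then ((x 0 0).toNat : ℤ) else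
          if (1 : ZMod 3) = 1 then ((x 1 0).toNat : ℤ) else _) = x 1 0
        rw [if_neg e0, if_pos rfl]; omega
      · show (if (2 : ZMod 3) = 0 then ((x 0 0).toNat : ℤ) else
          if (2 : ZMod 3) = 1 then ((x 1 0).toNat : ℤ) else ((x 2 0).toNat : ℤ)) = x 2 0
        rw [if_neg e1, if_neg e2]; omega

/-- Pairs of naturals with sum at most `n`. -/
def D (n : ℕ) : Finset (ℕ × ℕ) :=
  (Finset.range (n + 1)).biUnion (fun k => Finset.HasAntidiagonal.antidiagonal k)

lemma mem_D {n : ℕ} {p : ℕ × ℕ} : p ∈ D n ↔ p.1 + p.2 ≤ n := by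
  unfold D
  simp only [Finset.mem_biUnion, Finset.mem_range, Finset.HasAntidiagonal.mem_antidiagonal]
  constructor
  · rintro ⟨k, hk, h⟩; omega
  · intro h; exact ⟨p.1 + p.2, by omega, rfl⟩

lemma card_D (n : ℕ) : (D n).card = Nat.choose (2 + n) 2 := by
  unfold D
  rw [Finset.card_biUnion]
  · simp only [Finset.Nat.card_antidiagonal]
    induction n with
    | zero => simp
    | succ n ih =>
      rw [Finset.sum_range_succ, ih]
      have : 2 + (n + 1) = (2 + n) + 1 := by ring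
      rw [this, Nat.choose_succ_succ' (2 + n) 1]
      simp only [Nat.choose_one_right]
      ring_nf
  · intro i _ j _ hij
    rw [Function.onFun, Finset.disjoint_left]
    rintro p hp hq
    rw [Finset.HasAntidiagonal.mem_antidiagonal] at hp hq
    exact hij (hp.symm.trans hq)

lemma card_T_add_two (q : ℕ) :
    (T (q + 2)).card = (T q).card + (D (q + 2)).card + (D (q + 1)).card + (D q).card := by
  classical
  let f0 : ℕ × ℕ × ℕ → ℕ × ℕ × ℕ := fun p => (p.1 + 1, p.2.1 + 1, p.2.2 + 1)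
  let f1 : ℕ × ℕ → ℕ × ℕ × ℕ := fun p => (0, p.1, p.2)
  let f2 : ℕ × ℕ → ℕ × ℕ × ℕ := fun p => (p.1 + 1, 0, p.2)
  let f3 : ℕ × ℕ → ℕ × ℕ × ℕ := fun p => (p.1 + 1, p.2 + 1, 0)
  have h0 : Function.Injective f0 := by
    rintro ⟨a, b, c⟩ ⟨a', b', c'⟩ h
    simp only [f0, Prod.mk.injEq] at h ⊢
    omega
  have h1 : Function.Injective f1 := by
    rintro ⟨a, b⟩ ⟨a', b'⟩ h
    simp only [f1, Prod.mk.injEq] at h ⊢
    omega
  have h2 : Function.Injective f2 := by
    rintro ⟨a, b⟩ ⟨a', b'⟩ h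
    simp only [f2, Prod.mk.injEq] at h ⊢
    omega
  have h3 : Function.Injective f3 := by
    rintro ⟨a, b⟩ ⟨a', b'⟩ h
    simp only [f3, Prod.mk.injEq] at h ⊢
    omega
  have hT : T (q + 2) = (T q).image f0 ∪ (D (q + 2)).image f1 ∪ (D (q + 1)).image f2 ∪
      (D q).image f3 := by
    ext ⟨a, b, c⟩
    simp only [Finset.mem_union, Finset.mem_image, mem_T, mem_D, f0, f1, f2, f3, Prod.exists,
      Prod.mk.injEq]
    constructor
    · rintro ⟨e1, e2, e3⟩
      rcases Nat.eq_zero_or_pos a with ha | ha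
      · exact Or.inl (Or.inl (Or.inr ⟨b, c, by omega, by omega, rfl, rfl⟩))
      rcases Nat.eq_zero_or_pos b with hb | hb
      · exact Or.inl (Or.inr ⟨a - 1, c, by omega, by omega, by omega, rfl⟩)
      rcases Nat.eq_zero_or_pos c with hc | hc
      · exact Or.inr ⟨a - 1, b - 1, by omega, by omega, by omega, by omega⟩
      · exact Or.inl (Or.inl (Or.inl ⟨a - 1, b - 1, c - 1, by omega, by omega, by omega,
          by omega⟩))
    · rintro (((⟨a', b', c', h, rfl, rfl, rfl⟩ | ⟨a', b', h, rfl, rfl, rfl⟩) |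
        ⟨a', b', h, rfl, rfl, rfl⟩) | ⟨a', b', h, rfl, rfl, rfl⟩) <;> omega
  rw [hT, Finset.card_union_of_disjoint, Finset.card_union_of_disjoint,
    Finset.card_union_of_disjoint, Finset.card_image_of_injective _ h0,
    Finset.card_image_of_injective _ h1, Finset.card_image_of_injective _ h2,
    Finset.card_image_of_injective _ h3]
  · rw [Finset.disjoint_left]
    rintro ⟨a, b, c⟩ hp hq
    simp only [Finset.mem_image, f0, f1, Prod.exists, Prod.mk.injEq] at hp hq
    obtain ⟨_, _, _, _, e1, _, _⟩ := hp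
    obtain ⟨_, _, _, e2, _, _⟩ := hq
    omega
  · rw [Finset.disjoint_left]
    rintro ⟨a, b, c⟩ hp hq
    simp only [Finset.mem_union, Finset.mem_image, f0, f1, f2, Prod.exists, Prod.mk.injEq] at hp hq
    obtain ⟨_, _, _, e1, e2, _⟩ := hq
    rcases hp with ⟨_, _, _, _, _, _, _⟩ | ⟨_, _, _, _, _, _⟩ <;> omega
  · rw [Finset.disjoint_left]
    rintro ⟨a, b, c⟩ hp hq
    simp only [Finset.mem_union, Finset.mem_image, f0, f1, f2, f3, Prod.exists,
      Prod.mk.injEq] at hp hq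
    obtain ⟨_, _, _, e1, e2, e3⟩ := hq
    rcases hp with (⟨_, _, _, _, _, _, _⟩ | ⟨_, _, _, _, _, _⟩) | ⟨_, _, _, _, _, _⟩ <;> omega

lemma series_step :
    (1 - PowerSeries.X ^ 2) * PowerSeries.mk (fun q => (L 1 3 q : ℤ)) =
      (1 + PowerSeries.X + PowerSeries.X ^ 2) *
        PowerSeries.mk (fun n => (Nat.choose (2 + n) 2 : ℤ)) := by
  have hL0 : L 1 3 0 = 1 := by rw [L_eq]; decide
  have hL1 : L 1 3 1 = 4 := by rw [L_eq]; decide
  ext n
  rw [sub_mul, one_mul, add_mul, add_mul, one_mul, map_sub, map_add, map_add,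
    PowerSeries.coeff_X_pow_mul', PowerSeries.coeff_X_pow_mul']
  rcases n with _ | _ | n
  · simp [hL0]
  · rw [zero_add, ← zero_add 1, PowerSeries.coeff_succ_X_mul]
    simp [hL1]
  · rw [PowerSeries.coeff_succ_X_mul]
    simp only [PowerSeries.coeff_mk]
    have h2 : 2 ≤ n + 1 + 1 := by omega
    rw [if_pos h2, if_pos h2]
    have e : n + 1 + 1 - 2 = n := by omega
    rw [e]
    have h := card_T_add_two n
    rw [card_D, card_D, card_D] at h
    rw [L_eq, L_eq]
    have : n + 1 + 1 = n + 2 := rfl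
    rw [this, h]
    push_cast
    ring

lemma one_sub_pow_mul :
    (1 - PowerSeries.X) ^ 3 * PowerSeries.mk (fun n => (Nat.choose (2 + n) 2 : ℤ)) = 1 := by
  have h := PowerSeries.mk_one_pow_eq_mk_choose_add ℤ 2
  rw [← h, ← mul_pow, mul_comm (1 - PowerSeries.X)]
  have h2 : (PowerSeries.mk 1 : PowerSeries ℤ) * (1 - PowerSeries.X) = 1 :=
    PowerSeries.mk_one_mul_one_sub_eq_one ℤ
  rw [h2, one_pow]

/-- The numerator for `a = 1`, `m = 3`. -/
noncomputable def h13 : ℤ[X] := (1 + X) ^ 3 * (1 + X + X ^ 2)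

lemma isNumerator_h13 : IsNumerator 1 3 h13 := by
  unfold IsNumerator h13
  have e : (1 - PowerSeries.X ^ 2 : PowerSeries ℤ) ^ (1 * 3 + 1) *
      PowerSeries.mk (fun q => (L 1 3 q : ℤ)) =
      (1 - PowerSeries.X ^ 2) ^ 3 *
        ((1 - PowerSeries.X ^ 2) * PowerSeries.mk (fun q => (L 1 3 q : ℤ))) := by ring
  rw [e, series_step]
  have e2 : (1 - PowerSeries.X ^ 2 : PowerSeries ℤ) ^ 3 *
      ((1 + PowerSeries.X + PowerSeries.X ^ 2) *
        PowerSeries.mk (fun n => (Nat.choose (2 + n) 2 : ℤ))) =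
      (1 + PowerSeries.X) ^ 3 * (1 + PowerSeries.X + PowerSeries.X ^ 2) *
        ((1 - PowerSeries.X) ^ 3 *
          PowerSeries.mk (fun n => (Nat.choose (2 + n) 2 : ℤ))) := by ring
  rw [e2, one_sub_pow_mul, mul_one]
  push_cast
  rfl

lemma natDegree_h13 : h13.natDegree = 5 := by
  unfold h13
  compute_degree!

/-- Q2 is false: `h_{3,1}` is not `γ`-nonnegative. -/
theorem result : ∃ a m : ℕ, 1 ≤ a ∧ 3 ≤ m ∧ Odd m ∧
    ∃ h : ℤ[X], IsNumerator a m h ∧ ¬ GammaNonneg h := by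
  refine ⟨1, 3, le_refl _, le_refl _, by decide, h13, isNumerator_h13, ?_⟩
  rintro ⟨γ, hγ, h⟩
  rw [natDegree_h13] at h
  have h0 := congrArg (eval 0) h
  have h2 := congrArg (eval 2) h
  simp only [h13, Finset.sum_range_succ, Finset.sum_range_zero, Polynomial.map_mul,
    Polynomial.map_pow, Polynomial.map_add, Polynomial.map_one, Polynomial.map_X, eval_mul,
    eval_pow, eval_add, eval_one, eval_X, eval_C, eval_zero] at h0 h2
  norm_num at h0 h2
  have g1 := hγ 1
  have g2 := hγ 2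
  linarith

end Pool.Agent.Results.MP_308823_co.GammaFails
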