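import Pool.Agent.MP_308823_co.Signed

set_option autoImplicit false

namespace Pool.Agent.Results.MP_308823_co.NumeratorUnimodal

open Polynomial

/-- The cyclic block polytope `C_m^(a)`: points `x` with `m` cyclic blocks of size `a`,
nonnegative coordinates, and `R_i + R_{i+1} ≤ 1` for the block sums `R_i`. -/
def cyclicBlock (a m : ℕ) : Set (ZMod m → Fin a → ℝ) :=
  {x | (∀ i j, 0 ≤ x i j) ∧ ∀ i, (∑ j, x i j) + (∑ j, x (i + 1) j) ≤ 1}

/-- The number `L(q)` of integer points of the dilate `q C_m^(a)`. -/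
noncomputable def L (a m q : ℕ) : ℕ :=
  Set.ncard {x : ZMod m → Fin a → ℤ |
    (fun i j => (x i j : ℝ)) ∈ (fun y => (q : ℝ) • y) '' cyclicBlock a m}

/-- `h` is the rational Ehrhart numerator `h_{m,a}`:
`h(z) = (1 - z^2)^(a m + 1) * ∑_q L(q) z^q` as formal power series. -/
def IsNumerator (a m : ℕ) (h : ℤ[X]) : Prop :=
  (h : PowerSeries ℤ) =
    (1 - PowerSeries.X ^ 2) ^ (a * m + 1) * PowerSeries.mk (fun q => (L a m q : ℤ))

/-- The coefficient sequence of `h` is unimodal: it is weakly increasing up to some index `t`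
and weakly decreasing from there on. -/
def Unimodal (h : ℤ[X]) : Prop :=
  ∃ t : ℕ, (∀ k < t, h.coeff k ≤ h.coeff (k + 1)) ∧ ∀ k, t ≤ k → h.coeff (k + 1) ≤ h.coeff k

/-- Natural number points. -/
def NPts (a m q : ℕ) : Set (ZMod m → Fin a → ℕ) :=
  {x | ∀ i, (∑ j, x i j) + (∑ j, x (i + 1) j) ≤ q}

lemma mem_dilate (a m q : ℕ) (x : ZMod m → Fin a → ℤ) :
    ((fun i j => (x i j : ℝ)) ∈ (fun y => (q : ℝ) • y) '' cyclicBlock a m) ↔
      (∀ i j, 0 ≤ x i j) ∧ ∀ i, (∑ j, x i j) + (∑ j, x (i + 1) j) ≤ (q : ℤ) := by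
  constructor
  · rintro ⟨y, ⟨hy0, hy1⟩, hyx⟩
    have hx : ∀ i j, (x i j : ℝ) = q * y i j := by
      intro i j
      have := congrFun (congrFun hyx i) j
      simpa using this.symm
    have hq : (0 : ℝ) ≤ q := Nat.cast_nonneg q
    constructor
    · intro i j
      have : (0 : ℝ) ≤ x i j := by rw [hx]; exact mul_nonneg hq (hy0 i j)
      exact_mod_cast this
    · intro i
      have h1 := hy1 i
      have : (∑ j, (x i j : ℝ)) + (∑ j, (x (i + 1) j : ℝ)) ≤ q := by
        simp only [hx]
        rw [← Finset.mul_sum, ← Finset.mul_sum, ← mul_add]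
        calc (q : ℝ) * ((∑ j, y i j) + (∑ j, y (i + 1) j)) ≤ q * 1 :=
              mul_le_mul_of_nonneg_left h1 hq
          _ = q := mul_one _
      exact_mod_cast this
  · rintro ⟨h0, h1⟩
    rcases Nat.eq_zero_or_pos q with hq | hq
    · subst hq
      refine ⟨fun _ _ => 0, ⟨fun _ _ => le_refl _, fun i => by simp⟩, ?_⟩
      funext i j
      have a1 : x i j ≤ ∑ j, x i j :=
        Finset.single_le_sum (fun j _ => h0 i j) (Finset.mem_univ j)
      have a2 : 0 ≤ ∑ j, x (i + 1) j := Finset.sum_nonneg (fun j _ => h0 (i + 1) j)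
      have a3 := h1 i
      have a4 := h0 i j
      have : x i j = 0 := by push_cast at a3; omega
      simp [this]
    · have hq' : (0 : ℝ) < q := Nat.cast_pos.mpr hq
      refine ⟨fun i j => (x i j : ℝ) / q, ⟨?_, ?_⟩, ?_⟩
      · intro i j
        have : (0 : ℝ) ≤ x i j := by exact_mod_cast h0 i j
        positivity
      · intro i
        rw [← Finset.sum_div, ← Finset.sum_div, ← add_div, div_le_one hq']
        exact_mod_cast h1 i
      · funext i j
        simp only [Pi.smul_apply, smul_eq_mul]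
        field_simp

lemma L_eq_ncard (a m q : ℕ) : L a m q = (NPts a m q).ncard := by
  unfold L
  have : {x : ZMod m → Fin a → ℤ |
      (fun i j => (x i j : ℝ)) ∈ (fun y => (q : ℝ) • y) '' cyclicBlock a m} =
      (fun (x : ZMod m → Fin a → ℕ) => fun i j => (x i j : ℤ)) '' NPts a m q := by
    ext x
    rw [Set.mem_ofPred_eq, mem_dilate, Set.mem_image]
    constructor
    · rintro ⟨h0, h1⟩
      refine ⟨fun i j => (x i j).toNat, ?_, ?_⟩
      · intro i
        have := h1 i
        have e : ∀ i j, ((x i j).toNat : ℤ) = x i j := fun i j => Int.toNat_of_nonneg (h0 i j)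
        zify
        simp only [e]
        exact this
      · funext i j
        exact Int.toNat_of_nonneg (h0 i j)
    · rintro ⟨y, hy, rfl⟩
      refine ⟨fun i j => Int.natCast_nonneg _, fun i => ?_⟩
      have := hy i
      show (∑ j, (y i j : ℤ)) + (∑ j, (y (i + 1) j : ℤ)) ≤ (q : ℤ)
      exact_mod_cast this
  rw [this, Set.ncard_image_of_injective]
  intro x y hxy
  funext i j
  have := congrFun (congrFun hxy i) j
  simpa using this

/-- Partial sums. -/
def S {a : ℕ} (f : Fin a → ℕ) (n : ℕ) : ℕ :=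
  ∑ j ∈ Finset.range n, if h : j < a then f ⟨j, h⟩ else 0

lemma S_succ {a : ℕ} (f : Fin a → ℕ) {n : ℕ} (h : n < a) : S f (n + 1) = S f n + f ⟨n, h⟩ := by
  unfold S
  rw [Finset.sum_range_succ, dif_pos h]

lemma S_zero {a : ℕ} (f : Fin a → ℕ) : S f 0 = 0 := by simp [S]

lemma S_full {a : ℕ} (f : Fin a → ℕ) : S f a = ∑ j, f j := by
  unfold S
  rw [Finset.sum_range]
  apply Finset.sum_congr rfl
  intro j _
  rw [dif_pos j.2]

open Pool.Agent.MP_308823_co

variable {a m : ℕ}

/-- The parity function. -/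
def kap (u : ZMod m × Fin a) : ℕ := (u.2.val + 1) % 2

/-- The condition on the comparison type. -/
def Cond (R : Finset (((ZMod m × Fin a) × Bool) × ((ZMod m × Fin a) × Bool))) : Prop :=
  (∀ i : ZMod m, ∀ k k' : Fin a, k.val + 1 = k'.val → (((i, k), true), ((i, k'), true)) ∈ R) ∧
    (∀ i : ZMod m, ∀ k : Fin a, k.val + 1 = a → (((i, k), true), ((i + 1, k), false)) ∈ R)

variable [NeZero m]

lemma cond_iff {N : ℕ} {t : ZMod m × Fin a → ℕ} (hA : Adm kap N t) :
    Cond (ctype kap N t) ↔
      (∀ i : ZMod m, ∀ k k' : Fin a, k.val + 1 = k'.val → t (i, k) < t (i, k')) ∧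
      (∀ i : ZMod m, ∀ k : Fin a, k.val + 1 = a → t (i, k) + t (i + 1, k) ≤ 2 * N) := by
  unfold Cond
  apply and_congr
  · apply forall_congr'; intro i
    apply forall_congr'; intro k
    apply forall_congr'; intro k'
    apply imp_congr_right; intro hk
    rw [mem_ctype]
    simp only [dbl, dpar, kap, if_true]
    constructor
    · rintro ⟨_, h⟩; exact h
    · intro h; exact ⟨by omega, h⟩
  · apply forall_congr'; intro i
    apply forall_congr'; intro k
    apply imp_congr_right; intro hk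
    rw [mem_ctype]
    simp only [dbl, dpar, kap, if_true, Bool.false_eq_true, if_false]
    have h2 := (hA (i + 1, k)).2.1
    constructor
    · rintro ⟨_, h⟩; omega
    · intro h; exact ⟨by omega, by omega⟩

lemma hpred (N : ℕ) (t : ZMod m × Fin a → ℕ) (hA : Adm kap N t) (hC : Cond (ctype kap N t)) :
    ∀ u, dpar kap u = 0 → ∃ v, (v, u) ∈ ctype kap N t := by
  rintro ⟨⟨i, k⟩, b⟩ hu
  have hC' := (cond_iff hA).mp hC
  cases b
  · simp only [dpar, kap, Bool.false_eq_true, if_false] at hu
    by_cases hk : k.val + 1 < a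
    · refine ⟨((i, ⟨k.val + 1, hk⟩), false), ?_⟩
      rw [mem_ctype]
      simp only [dbl, dpar, kap, Bool.false_eq_true, if_false]
      have h1 := hC'.1 i k ⟨k.val + 1, hk⟩ rfl
      have h2 := (hA (i, ⟨k.val + 1, hk⟩)).2.1
      exact ⟨by omega, by omega⟩
    · refine ⟨((i - 1, k), true), ?_⟩
      have := hC.2 (i - 1) k (by have := k.2; omega)
      rwa [sub_add_cancel] at this
  · simp only [dpar, kap, if_true] at hu
    have hk : 1 ≤ k.val := by omega
    refine ⟨((i, ⟨k.val - 1, by have := k.2; omega⟩), true), ?_⟩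
    apply hC.1
    simp only
    omega

/-- The differences. -/
def diff (t : ZMod m × Fin a → ℕ) (i : ZMod m) (k : Fin a) : ℕ :=
  (t (i, k) - (if h : 1 ≤ k.val then t (i, ⟨k.val - 1, by have := k.2; omega⟩) else 0) - 1) / 2

omit [NeZero m] in
lemma two_S_diff {N : ℕ} {t : ZMod m × Fin a → ℕ} (hA : Adm kap N t)
    (hC : ∀ i : ZMod m, ∀ k k' : Fin a, k.val + 1 = k'.val → t (i, k) < t (i, k'))
    (i : ZMod m) : ∀ n, ∀ h : n < a, t (i, ⟨n, h⟩) = 2 * S (diff t i) (n + 1) + n + 1 := by
  intro n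
  induction n with
  | zero =>
    intro h
    rw [S_succ _ h, S_zero]
    have h1 := hA (i, ⟨0, h⟩)
    have h2 := h1.2.2
    simp only [kap] at h2
    have hd : diff t i ⟨0, h⟩ = (t (i, ⟨0, h⟩) - 0 - 1) / 2 := by
      unfold diff
      rw [dif_neg (by simp)]
    rw [hd]
    omega
  | succ n ih =>
    intro h
    have h' : n < a := by omega
    have ih' := ih h'
    rw [S_succ _ h]
    have h1 := (hA (i, ⟨n + 1, h⟩)).2.2
    have h2 := (hA (i, ⟨n, h'⟩)).2.2
    have h3 := hC i ⟨n, h'⟩ ⟨n + 1, h⟩ rfl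
    simp only [kap] at h1 h2
    have hd : diff t i ⟨n + 1, h⟩ = (t (i, ⟨n + 1, h⟩) - t (i, ⟨n, h'⟩) - 1) / 2 := by
      unfold diff
      rw [dif_pos (by simp)]
      rfl
    rw [hd]
    omega

/-- The map from points to labelled maps. -/
def toT (x : ZMod m → Fin a → ℕ) (u : ZMod m × Fin a) : ℕ :=
  2 * S (x u.1) (u.2.val + 1) + u.2.val + 1

omit [NeZero m] in
lemma diff_toT (x : ZMod m → Fin a → ℕ) : diff (toT x) = x := by
  funext i k
  unfold diff toT
  simp only
  split_ifs with h
  · have e : k.val - 1 + 1 = k.val := by omega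
    rw [e, S_succ _ k.2]
    simp only [Fin.eta]
    omega
  · have e : k.val = 0 := by omega
    have := S_succ (x i) k.2
    simp only [Fin.eta] at this
    rw [this, e, S_zero]
    omega

lemma S_mono {a : ℕ} (f : Fin a → ℕ) {n n' : ℕ} (h : n ≤ n') : S f n ≤ S f n' := by
  unfold S
  apply Finset.sum_le_sum_of_subset
  exact Finset.range_mono h

lemma toT_adm {x : ZMod m → Fin a → ℕ} {q : ℕ} (hx : x ∈ NPts a m q) :
    Adm kap (q + a) (toT x) := by
  rintro ⟨i, k⟩
  unfold toT kap
  simp only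
  have h1 : S (x i) (k.val + 1) ≤ S (x i) a := S_mono _ k.2
  rw [S_full] at h1
  have h2 := hx i
  have h3 := k.2
  refine ⟨by omega, by omega, by omega⟩

lemma ncard_eq (ha : 1 ≤ a) (q : ℕ) :
    (NPts a m q).ncard = (admSet (kap (m := m) (a := a)) Cond (q + a)).card := by
  rw [← Set.ncard_coe_finset]
  apply Set.ncard_congr (fun x _ => toT x)
  · intro x hx
    rw [Finset.mem_coe, mem_admSet]
    have hA := toT_adm hx
    refine ⟨hA, (cond_iff hA).mpr ⟨?_, ?_⟩⟩
    · intro i k k' hk
      unfold toT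
      simp only
      have := S_mono (x i) (show k.val + 1 ≤ k'.val + 1 by omega)
      omega
    · intro i k hk
      unfold toT
      simp only
      rw [hk, S_full, S_full]
      have := hx i
      omega
  · intro x y _ _ hxy
    rw [← diff_toT x, ← diff_toT y, hxy]
  · intro t ht
    rw [Finset.mem_coe, mem_admSet] at ht
    obtain ⟨hA, hC⟩ := ht
    rw [cond_iff hA] at hC
    have hS := two_S_diff hA hC.1
    refine ⟨diff t, ?_, ?_⟩
    · intro i
      have hlt : a - 1 < a := by omega
      have e : a - 1 + 1 = a := by omega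
      have h1 := hS i (a - 1) hlt
      have h2 := hS (i + 1) (a - 1) hlt
      rw [e, S_full] at h1 h2
      have h3 := hC.2 i ⟨a - 1, hlt⟩ e
      omega
    · funext ⟨i, k⟩
      unfold toT
      exact (hS i k.val k.2).symm

lemma admSet_small (ha : 1 ≤ a) {N : ℕ} (hN : N < a) :
    (admSet (kap (m := m) (a := a)) Cond N).card = 0 := by
  rw [Finset.card_eq_zero]
  apply Finset.eq_empty_of_forall_notMem
  intro t ht
  rw [mem_admSet] at ht
  obtain ⟨hA, hC⟩ := ht
  rw [cond_iff hA] at hC
  have hS := two_S_diff hA hC.1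
  have hlt : a - 1 < a := by omega
  have h1 := hS 0 (a - 1) hlt
  have h2 := hS (0 + 1) (a - 1) hlt
  have h3 := hC.2 0 ⟨a - 1, hlt⟩ (by simp only; omega)
  omega

lemma series_shift (ha : 1 ≤ a) :
    (PowerSeries.mk fun N => ((admSet (kap (m := m) (a := a)) Cond N).card : ℤ)) =
      PowerSeries.X ^ a * PowerSeries.mk (fun q => (L a m q : ℤ)) := by
  ext N
  rw [PowerSeries.coeff_mk, PowerSeries.coeff_X_pow_mul']
  split_ifs with h
  · rw [PowerSeries.coeff_mk, L_eq_ncard, ncard_eq ha]
    congr 3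
    omega
  · rw [admSet_small ha (by omega)]
    rfl

/-- **Q1 is true.** For every `a ≥ 1` and odd `m ≥ 3` the rational Ehrhart numerator `h_{m,a}`
exists (it is a polynomial), is unique, and has a unimodal coefficient sequence. -/
theorem result (a m : ℕ) (ha : 1 ≤ a) (hm : 3 ≤ m) (_hodd : Odd m) :
    ∃ h : ℤ[X], IsNumerator a m h ∧ (∀ h' : ℤ[X], IsNumerator a m h' → h' = h) ∧ Unimodal h := by
  have : NeZero m := ⟨by omega⟩
  obtain ⟨W, hW, hWe⟩ := signed_good (kap (m := m) (a := a)) Cond hpred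
  rw [series_shift ha, Fintype.card_prod, ZMod.card, Fintype.card_fin, mul_comm m a] at hWe
  rw [Fintype.card_prod, ZMod.card, Fintype.card_fin, mul_comm m a] at hW
  obtain ⟨p, hp⟩ := dcone_poly hW
  have hWp : W = (p : PowerSeries ℤ) := mul_left_cancel₀ one_sub_sq_ne_zero hp
  set hs : PowerSeries ℤ :=
    (1 - PowerSeries.X ^ 2) ^ (a * m + 1) * PowerSeries.mk (fun q => (L a m q : ℤ)) with hhs
  have hX : PowerSeries.X ^ a * hs = (1 + PowerSeries.X) * W := by
    rw [← hWe, hhs]; ring
  have hH : PowerSeries.X ^ a * hs = (((1 + X) * p : ℤ[X]) : PowerSeries ℤ) := by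
    rw [hX, hWp]; push_cast; rfl
  have hcoeff : ∀ k, PowerSeries.coeff k hs = ((1 + X) * p : ℤ[X]).coeff (k + a) := by
    intro k
    rw [← Polynomial.coeff_coe, ← hH, PowerSeries.coeff_X_pow_mul]
  have hpoly : ((PowerSeries.trunc (((1 + X) * p : ℤ[X]).natDegree + 1) hs : ℤ[X]) :
      PowerSeries ℤ) = hs := by
    ext k
    rw [Polynomial.coeff_coe, PowerSeries.coeff_trunc]
    split_ifs with h
    · rfl
    · rw [hcoeff k]
      symm
      apply Polynomial.coeff_eq_zero_of_natDegree_lt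
      omega
  refine ⟨_, hpoly, ?_, ?_⟩
  · intro h' hh'
    apply Polynomial.coe_injective (R := ℤ)
    rw [hpoly]
    exact hh'
  · have hD : PowerSeries.X ^ a * ((1 - PowerSeries.X) * hs) = (1 - PowerSeries.X ^ 2) * W := by
      have : PowerSeries.X ^ a * ((1 - PowerSeries.X) * hs) =
          (1 - PowerSeries.X) * (PowerSeries.X ^ a * hs) := by ring
      rw [this, hX]; ring
    have hdiff : ∀ k, PowerSeries.coeff (k + 1) hs - PowerSeries.coeff k hs =
        PowerSeries.coeff (k + 1 + a) ((1 - PowerSeries.X ^ 2) * W) := by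
      intro k
      rw [← hD, PowerSeries.coeff_X_pow_mul, sub_mul, one_mul, map_sub,
        PowerSeries.coeff_succ_X_mul]
    have hc : ∀ k, (PowerSeries.trunc (((1 + X) * p : ℤ[X]).natDegree + 1) hs).coeff k =
        PowerSeries.coeff k hs := by
      intro k
      rw [← Polynomial.coeff_coe, hpoly]
    have hle : a ≤ a * m := Nat.le_mul_of_pos_right a (by omega)
    refine ⟨a * m - a, ?_, ?_⟩
    · intro k hk
      rw [hc, hc]
      have h1 := dcone_coeff_nonneg hW (k + 1 + a) (by omega)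
      rw [← hdiff] at h1
      omega
    · intro k hk
      rw [hc, hc]
      have h1 := dcone_coeff_nonpos hW (k + 1 + a) (by omega)
      rw [← hdiff] at h1
      omega

end Pool.Agent.Results.MP_308823_co.NumeratorUnimodal
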